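import Pool.Agent.Run7.h565.LC.Hand3
import Pool.Agent.Run7.h565.SM.Equ5

/-!
# Stirring on the torus: every piece of every cycle is equidistributed in space

Nearest neighbour random stirring on `(ℤ / L)^d`, `d ≥ 3`, at times `t ≥ (log L) ^ m₀`. Every
set `B` with at least `N₀` points (`N₀` independent of `L`), wherever they are, is visited by every
piece of every cycle in the right proportion.

The proofs are in Pool/Agent/Run7/h565/SM (Equ1 to Equ5). They use the theorem on the arcs between
`k` points (ArcFin, ArcObs, in the same directory) and the theorem on the cycle partition of `k`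
points (Pool/Agent/Run7/h565/LC).
-/

set_option autoImplicit false

namespace Pool.Agent.Results.MP_6c3d62_pr.ArcsEquidistributed

open Finset Equiv
open Pool.Agent.Y998.ST (stirExp nnRate cycleLen)

/-- The number of visits to `B` in the first `n` steps from `x` along the cycle of `x`: the number
of `j < n` such that `(g ^ j) x` is in `B`. -/
def visits {V : Type} [DecidableEq V] (B : Finset V) (g : Perm V) (x : V) (n : ℕ) : ℕ :=
  ((Finset.range n).filter fun j => (g ^ j) x ∈ B).card

open Classical in
/-- Nearest neighbour random stirring on the torus `(ℤ / L)^d` in dimension `d ≥ 3`, started at the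
identity. There is `m₀`, depending only on `d`, such that the following holds, uniformly over ALL
times `t ≥ (log L) ^ m₀`. For every `η > 0` there is `N₀`, which does not depend on `L`, such that
for all large `L` and every set `B` of at least `N₀` points of the torus: with probability at
least `1 - η` EVERY piece of EVERY cycle visits `B` in the right proportion, namely, for every
point `x` and every `n` which is at most the length of the cycle of `x`, the fraction of the points
of `B` which are among the `n` points `x, g x, ..., g ^ (n - 1) x` differs from `n / L ^ d` by at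
most `η`. -/
theorem result (d : ℕ) (hd : 3 ≤ d) : ∃ m₀ : ℕ,
    ∀ η : ℝ, 0 < η → ∃ N₀ L₀ : ℕ, ∀ (L : ℕ) [NeZero L], L₀ ≤ L →
      ∀ t : ℝ, (Real.log L) ^ m₀ ≤ t →
      ∀ B : Finset (Fin d → ZMod L), N₀ ≤ B.card →
      stirExp (nnRate d L) t (fun g =>
        if ∃ (x : Fin d → ZMod L) (n : ℕ), n ≤ cycleLen g x ∧
          η < |(visits B g x n : ℝ) / B.card - n / (L : ℝ) ^ d| then 1 else 0) ≤ η := by
  obtain ⟨m₀, h⟩ := Run7.h565.SM.equi Run7.h565.LC.t_KPT d hd
  refine ⟨m₀, fun η hη => ?_⟩
  obtain ⟨N₀, L₀, h⟩ := h η hη
  refine ⟨N₀, L₀, fun L _ hL t ht B hB => ?_⟩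
  have h1 := h L hL t ht B hB
  have hcard : (Fintype.card (Fin d → ZMod L) : ℝ) = (L : ℝ) ^ d := by
    rw [Fintype.card_fun, ZMod.card, Fintype.card_fin]
    push_cast
    rfl
  have h2 : ∀ (g : Perm (Fin d → ZMod L)) (x : Fin d → ZMod L) (n : ℕ),
      Run7.h565.SM.disc B g x n = (visits B g x n : ℝ) / B.card - n / (L : ℝ) ^ d := by
    intro g x n
    unfold Run7.h565.SM.disc
    rw [hcard]
    rfl
  refine le_trans (le_of_eq (congrArg (stirExp (nnRate d L) t) (funext fun g => ?_))) h1
  simp only [h2]

end Pool.Agent.Results.MP_6c3d62_pr.ArcsEquidistributed
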