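import Pool.Agent.Run7.h565.LC.Hand3
import Pool.Agent.Run7.h565.SM.Eqp3

/-!
# Stirring on the torus: the arcs of the cycles are equidistributed with respect to every set
determined by the past and the future

Nearest neighbour random stirring on `(ℤ / L)^d`, `d ≥ 3`, at times `t ≥ (log L) ^ m₀`. A set `B`
may be chosen by looking at the permutation at time `t` and at the permutation at time
`t + s + s'`. All pieces of all cycles of the permutation at time `t + s` visit `B` in the right
proportion, if `s` and `s'` are at least `K / L ^ d` (a bounded number of transpositions).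

The proofs are in Pool/Agent/Run7/h565/SM (Equ1 to Equ5, Eqp1 to Eqp3; Jnt1 to Jnt4: past and
future). They use the theorem on the cycle partition of `k` points (Pool/Agent/Run7/h565/LC).
-/

set_option autoImplicit false

namespace Pool.Agent.Results.MP_6c3d62_pr.ArcsForgetPastAndFuture

open Finset Equiv
open Pool.Agent.Y998.ST (stirExp stirLaw nnRate cycleLen)

/-- The number of visits to `B` in the first `n` steps from `x` along the cycle of `x`: the number
of `j < n` such that `(g ^ j) x` is in `B`. -/
def visits {V : Type} [DecidableEq V] (B : Finset V) (g : Perm V) (x : V) (n : ℕ) : ℕ :=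
  ((Finset.range n).filter fun j => (g ^ j) x ∈ B).card

/-- The mean of `G` of the permutation at time `t + s`, given that the permutation at time `t` is
`g` (for the stirring process with rates `J`). -/
noncomputable def later {V : Type} [Fintype V] [DecidableEq V] (J : V → V → ℝ) (s : ℝ)
    (G : Perm V → ℝ) (g : Perm V) : ℝ := ∑ h, stirLaw J s h * G (h * g)

open Classical in
/-- Nearest neighbour random stirring on the torus `(ℤ / L)^d` in dimension `d ≥ 3`, started at the
identity; `η_u` is the permutation at time `u`. There is `m₀`, depending only on `d`, such that the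
following holds, uniformly over ALL times `t ≥ (log L) ^ m₀`. For every `η > 0` there is `K`,
independent of `L`, such that for all large `L` and all `s, s' ≥ K / L ^ d` (so that in these times
there is only a bounded number of transpositions): whatever set `B` of points of the torus is
chosen as a function of `η_t` (the past) and of `η_{t+s+s'}` (the future), with probability at
least `1 - η` EVERY piece of EVERY cycle of the permutation `η_{t+s}` visits `B` in the right
proportion: for every point `x` and every `n` which is at most the length of the cycle of `x`, the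
number of the points `x, h x, ..., h ^ (n - 1) x` (`h = η_{t+s}`) which are in `B` is
`|B| * n / L ^ d`, up to `η * L ^ d`. -/
theorem result (d : ℕ) (hd : 3 ≤ d) : ∃ m₀ : ℕ,
    ∀ η : ℝ, 0 < η → ∃ (K : ℝ) (L₀ : ℕ), 0 < K ∧ ∀ (L : ℕ) [NeZero L], L₀ ≤ L →
      ∀ t : ℝ, (Real.log L) ^ m₀ ≤ t →
      ∀ s s' : ℝ, K / (L : ℝ) ^ d ≤ s → K / (L : ℝ) ^ d ≤ s' →
      ∀ B : Perm (Fin d → ZMod L) → Perm (Fin d → ZMod L) → Finset (Fin d → ZMod L),
      stirExp (nnRate d L) t (fun g =>
        later (nnRate d L) s (fun h => later (nnRate d L) s' (fun k =>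
          if ∃ (x : Fin d → ZMod L) (n : ℕ), n ≤ cycleLen h x ∧
            η < |(visits (B g k) h x n : ℝ) / (L : ℝ) ^ d -
              ((B g k).card : ℝ) / (L : ℝ) ^ d * (n / (L : ℝ) ^ d)| then 1 else 0) h) g) ≤ η := by
  obtain ⟨m₀, h⟩ := Run7.h565.SM.equi2 Run7.h565.LC.t_KPT d hd
  refine ⟨m₀, fun η hη => ?_⟩
  obtain ⟨K, L₀, hK, h⟩ := h η hη
  refine ⟨K, L₀, hK, fun L _ hL t ht s s' hs hs' B => ?_⟩
  have hL0 : (0 : ℝ) < (L : ℝ) ^ d := by
    have : (0 : ℝ) < L := by exact_mod_cast Nat.pos_of_ne_zero (NeZero.ne L)
    positivity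
  rw [div_le_iff₀ hL0] at hs hs'
  have h1 := h L hL t ht s s' hs hs' B
  have hcard : (Fintype.card (Fin d → ZMod L) : ℝ) = (L : ℝ) ^ d := by
    rw [Fintype.card_fun, ZMod.card, Fintype.card_fin]
    push_cast
    rfl
  have h2 : ∀ (B : Finset (Fin d → ZMod L)) (g : Perm (Fin d → ZMod L)) (x : Fin d → ZMod L)
      (n : ℕ), Run7.h565.SM.dsc B g x n = (visits B g x n : ℝ) / (L : ℝ) ^ d -
        (B.card : ℝ) / (L : ℝ) ^ d * (n / (L : ℝ) ^ d) := by
    intro B g x n
    unfold Run7.h565.SM.dsc
    rw [hcard]
    rfl
  simp only [h2] at h1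
  exact h1

end Pool.Agent.Results.MP_6c3d62_pr.ArcsForgetPastAndFuture
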