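import Pool.Agent.Run7.h565.LC.Hand3
import Pool.Agent.Run7.h565.SM.Eqp4

/-!
# Stirring on the torus: every arc of every new cycle meets every arc of every old cycle in the
right proportion

Nearest neighbour random stirring on `(ℤ / L)^d`, `d ≥ 3`, at times `t ≥ (log L) ^ m₀`. After a
further time `s ≥ K / L ^ d` (a bounded number of transpositions) the arcs of the new cycles are
asymptotically independent of the arcs of the old cycles, as sets of points.

The proofs are in Pool/Agent/Run7/h565/SM (Equ1 to Equ5, Eqp1 to Eqp4; Jnt1 to Jnt4). They use the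
theorem on the cycle partition of `k` points (Pool/Agent/Run7/h565/LC).
-/

set_option autoImplicit false

namespace Pool.Agent.Results.MP_6c3d62_pr.ArcsOldAndNew

open Finset Equiv
open Pool.Agent.Y998.ST (stirExp stirLaw nnRate cycleLen)

/-- The set of the points `x, g x, ..., g ^ (n - 1) x` (an arc, if `n` is at most the length of the
cycle of `x`). -/
def arc {V : Type} [DecidableEq V] (g : Perm V) (x : V) (n : ℕ) : Finset V :=
  (Finset.range n).image fun i => (g ^ i) x

/-- The mean of `G` of the permutation at time `t + s`, given that the permutation at time `t` is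
`g` (for the stirring process with rates `J`). -/
noncomputable def later {V : Type} [Fintype V] [DecidableEq V] (J : V → V → ℝ) (s : ℝ)
    (G : Perm V → ℝ) (g : Perm V) : ℝ := ∑ h, stirLaw J s h * G (h * g)

open Classical in
/-- Nearest neighbour random stirring on the torus `(ℤ / L)^d` in dimension `d ≥ 3`, started at the
identity; `g` is the permutation at time `t` and `h` the permutation at time `t + s`. There is
`m₀`, depending only on `d`, such that the following holds, uniformly over ALL times
`t ≥ (log L) ^ m₀`. For every `η > 0` there is `K`, independent of `L`, such that for all large `L`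
and all `s ≥ K / L ^ d` (a bounded number of transpositions is enough), with probability at least
`1 - η`, EVERY arc `A` of EVERY cycle of `g` and EVERY arc `A'` of EVERY cycle of `h` have
`|A| * |A'| / L ^ d` points in common, up to `η * L ^ d`. Here `A` consists of the points
`x, g x, ..., g ^ (n - 1) x` with `n` at most the length of the cycle of `x`, so `|A| = n`; and
similarly for `A'`. -/
theorem result (d : ℕ) (hd : 3 ≤ d) : ∃ m₀ : ℕ,
    ∀ η : ℝ, 0 < η → ∃ (K : ℝ) (L₀ : ℕ), 0 < K ∧ ∀ (L : ℕ) [NeZero L], L₀ ≤ L →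
      ∀ t : ℝ, (Real.log L) ^ m₀ ≤ t → ∀ s : ℝ, K / (L : ℝ) ^ d ≤ s →
      stirExp (nnRate d L) t (fun g => later (nnRate d L) s (fun h =>
        if ∃ (x : Fin d → ZMod L) (n : ℕ) (x' : Fin d → ZMod L) (n' : ℕ),
          n ≤ cycleLen g x ∧ n' ≤ cycleLen h x' ∧
          η < |((arc g x n ∩ arc h x' n').card : ℝ) / (L : ℝ) ^ d -
            n / (L : ℝ) ^ d * (n' / (L : ℝ) ^ d)| then 1 else 0) g) ≤ η := by
  obtain ⟨m₀, h⟩ := Run7.h565.SM.equi3 Run7.h565.LC.t_KPT d hd
  refine ⟨m₀, fun η hη => ?_⟩
  obtain ⟨K, L₀, hK, h⟩ := h η hη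
  refine ⟨K, L₀, hK, fun L _ hL t ht s hs => ?_⟩
  have hL0 : (0 : ℝ) < (L : ℝ) ^ d := by
    have : (0 : ℝ) < L := by exact_mod_cast Nat.pos_of_ne_zero (NeZero.ne L)
    positivity
  rw [div_le_iff₀ hL0] at hs
  have h1 := h L hL t ht s hs
  have hcard : (Fintype.card (Fin d → ZMod L) : ℝ) = (L : ℝ) ^ d := by
    rw [Fintype.card_fun, ZMod.card, Fintype.card_fin]
    push_cast
    rfl
  have h2 : ∀ (g h : Perm (Fin d → ZMod L)) (x : Fin d → ZMod L) (n : ℕ)
      (x' : Fin d → ZMod L) (n' : ℕ), n ≤ cycleLen g x → n' ≤ cycleLen h x' →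
      Run7.h565.SM.pd g x n h x' n' = ((arc g x n ∩ arc h x' n').card : ℝ) / (L : ℝ) ^ d -
        n / (L : ℝ) ^ d * (n' / (L : ℝ) ^ d) := by
    intro g h x n x' n' hn hn'
    unfold Run7.h565.SM.pd
    rw [hcard, Run7.h565.SM.pc_cnt hn]
    congr 2
    unfold Run7.h565.SM.cnt arc
    have e1 : ((Finset.range n').filter fun j => (h ^ j) x' ∈ Run7.h565.SM.aset g x n).image
        (fun i => (h ^ i) x') =
        ((Finset.range n).image fun i => (g ^ i) x) ∩ (Finset.range n').image
          fun i => (h ^ i) x' := by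
      ext v
      rw [Finset.mem_inter, Finset.mem_image, Finset.mem_image]
      constructor
      · rintro ⟨j, hj, rfl⟩
        rw [Finset.mem_filter] at hj
        exact ⟨Finset.mem_image.1 hj.2, Finset.mem_image.2 ⟨j, hj.1, rfl⟩⟩
      · rintro ⟨hv, hv'⟩
        rw [Finset.mem_image] at hv'
        obtain ⟨j, hj, rfl⟩ := hv'
        exact ⟨j, Finset.mem_filter.2 ⟨hj, Finset.mem_image.2 hv⟩, rfl⟩
    rw [← e1, Finset.card_image_of_injOn]
    intro p hp q hq hpq
    rw [Finset.mem_coe, Finset.mem_filter, Finset.mem_range] at hp hq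
    exact Run7.h565.SM.orb_inj hn' hp.1 hq.1 hpq
  refine le_trans (le_of_eq (congrArg (stirExp (nnRate d L) t) (funext fun g => ?_))) h1
  unfold later Run7.h565.SM.fut
  refine Finset.sum_congr rfl fun a _ => congrArg (fun r => stirLaw (nnRate d L) s a * r)
    (if_congr ?_ rfl rfl)
  constructor
  · rintro ⟨x, n, x', n', hn, hn', hx⟩
    exact ⟨x, n, x', n', hn, hn', by rw [h2 g (a * g) x n x' n' hn hn']; exact hx⟩
  · rintro ⟨x, n, x', n', hn, hn', hx⟩
    exact ⟨x, n, x', n', hn, hn', by rw [← h2 g (a * g) x n x' n' hn hn']; exact hx⟩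

end Pool.Agent.Results.MP_6c3d62_pr.ArcsOldAndNew
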