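import Pool.Agent.Run7.h565.LC.Hand3
import Pool.Agent.Run7.h565.SM.Jnt4

/-!
# Stirring on the torus: the arcs between any `k` points of the cycles, given the past and the future

Nearest neighbour random stirring on `(ℤ / L)^d`, `d ≥ 3`, at times `t ≥ (log L) ^ m₀`. Any `k`
points, wherever they are, cut their cycles into `k` arcs. The permutation of the points induced
by the cycles is asymptotically uniform and independent of the arcs, and the lengths of the arcs
divided by `L ^ d`, together with the fraction of the points outside these cycles, are uniformly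
distributed on the simplex, as for a uniform permutation. This holds at a time `t + s` given the
permutation at time `t` and the permutation at time `t + s + s'`, as soon as `s` and `s'` are at
least `K / L ^ d`.

The proofs are in Pool/Agent/Run7/h565/SM (Cnt: the exact number of permutations with long arcs;
PtsA to PtsD: observables of `k` points and functions with small energy; Jnt1 to Jnt4: past and
future). They use the theorem on the cycle partition of `k` points (Pool/Agent/Run7/h565/LC).
-/

set_option autoImplicit false

namespace Pool.Agent.Results.MP_6c3d62_pr.ArcsPastAndFuture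

open Finset Equiv
open Pool.Agent.Y998.ST (stirExp stirLaw nnRate)

/-- The length of the arc which begins at `b i`: the number of steps along the cycle of the
permutation `g` from `b i` to the next of the points `b`. -/
noncomputable def arcLen {V : Type} {k : ℕ} (b : Fin k → V) (g : Perm V) (i : Fin k) : ℕ :=
  sInf {n : ℕ | 1 ≤ n ∧ (g ^ n) (b i) ∈ Set.range b}

/-- `π` is the permutation induced by `g` on the points `b`: the next one of the points `b` in
the cycle of `b i` is `b (π i)`. -/
def Induces {V : Type} {k : ℕ} (b : Fin k → V) (g : Perm V) (π : Perm (Fin k)) : Prop :=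
  ∀ i, (g ^ arcLen b g i) (b i) = b (π i)

/-- The mean of `G` of the permutation at time `t + s`, given that the permutation at time `t` is
`g` (for the stirring process with rates `J`). -/
noncomputable def later {V : Type} [Fintype V] [DecidableEq V] (J : V → V → ℝ) (s : ℝ)
    (G : Perm V → ℝ) (g : Perm V) : ℝ := ∑ h, stirLaw J s h * G (h * g)

open Classical in
/-- Nearest neighbour random stirring on the torus `(ℤ / L)^d` in dimension `d ≥ 3`, started at the
identity; `η_u` is the permutation at time `u`. There is `m₀`, depending only on `d`, such that the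
following holds as `L → ∞`, uniformly over ALL times `t ≥ (log L) ^ m₀`, over all `k` distinct
points `b` of the torus, over the permutations `π` of the indices and over all `α ≥ 0` with sum at
most one. Let `E` be the event that the cycles induce `π` on the points `b` and that the arc from
`b i` to the next of the points is longer than `α i * L ^ d` for every `i`. If `s, s' ≥ K / L ^ d`
(with `K` independent of `L`, so that in these times there is only a bounded number of
transpositions), then the conditional probability of `E` at time `t + s`, given the permutation at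
time `t` and the permutation at time `t + s + s'`, is `(1 - ∑ i, α i) ^ k / k!`, up to an error
`η` in `L¹`. This is stated with functions `Φ` of the two permutations with values in `[-1, 1]`:
up to `η` in `L¹`, the conditional mean of `1_E(η_{t+s}) * Φ(η_t, η_{t+s+s'})` given `η_t` is
`(1 - ∑ i, α i) ^ k / k!` times the conditional mean of `Φ(η_t, η_{t+s+s'})` given `η_t`.

So given the past and the future the arcs have asymptotically the law of the arcs of a uniform
permutation: the induced permutation is uniform and independent of the arcs, and the fractions of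
the `k` arcs and of the points in no cycle of a point `b i` are uniformly distributed on the
simplex. -/
theorem result (d : ℕ) (hd : 3 ≤ d) : ∃ m₀ : ℕ,
    ∀ (k : ℕ) (η : ℝ), 0 < η → ∃ (K : ℝ) (L₀ : ℕ), 0 < K ∧ ∀ (L : ℕ) [NeZero L], L₀ ≤ L →
      ∀ t : ℝ, (Real.log L) ^ m₀ ≤ t →
      ∀ s s' : ℝ, K / (L : ℝ) ^ d ≤ s → K / (L : ℝ) ^ d ≤ s' →
      ∀ b : Fin k → Fin d → ZMod L, Function.Injective b →
      ∀ (π : Perm (Fin k)) (α : Fin k → ℝ), (∀ i, 0 ≤ α i) → ∑ i, α i ≤ 1 →
      ∀ Φ : Perm (Fin d → ZMod L) → Perm (Fin d → ZMod L) → ℝ, (∀ g h, |Φ g h| ≤ 1) →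
      stirExp (nnRate d L) t (fun g =>
        |later (nnRate d L) s (fun h =>
            (if Induces b h π ∧ ∀ i, α i * (L : ℝ) ^ d < arcLen b h i then 1 else 0) *
              later (nnRate d L) s' (Φ g) h) g -
          (1 - ∑ i, α i) ^ k / (k.factorial : ℝ) * later (nnRate d L) (s + s') (Φ g) g|) ≤ η := by
  obtain ⟨m₀, h⟩ := Run7.h565.SM.arc_jnt Run7.h565.LC.t_KPT d hd
  refine ⟨m₀, fun k η hη => ?_⟩
  obtain ⟨K, A, hK, h⟩ := h k η hη
  refine ⟨K, A, hK, fun L _ hL t ht s s' hs hs' b hb π α hα hsum Φ hΦ => ?_⟩
  have hcard : (Fintype.card (Fin d → ZMod L) : ℝ) = (L : ℝ) ^ d := by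
    rw [Fintype.card_fun, ZMod.card, Fintype.card_fin]
    push_cast
    rfl
  have hL0 : (0 : ℝ) < (L : ℝ) ^ d := by
    have : (0 : ℝ) < L := by exact_mod_cast Nat.pos_of_ne_zero (NeZero.ne L)
    positivity
  rw [div_le_iff₀ hL0] at hs hs'
  have h1 := h L hL t ht s s' hs hs' ⟨b, hb⟩ π α hα (fun i =>
    (Finset.single_le_sum (f := α) (fun i _ => hα i) (Finset.mem_univ i)).trans hsum) Φ hΦ
  have h2 : (fun g : Perm (Fin d → ZMod L) =>
      if Induces b g π ∧ ∀ i, α i * (L : ℝ) ^ d < arcLen b g i then (1 : ℝ) else 0) =
      Run7.h565.SM.evA b π α := by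
    funext g
    have e1 : Induces b g π ↔ Pool.Agent.TH268.PD.ret k b g = π := by
      constructor
      · intro hi
        refine Equiv.ext fun i => hb ?_
        rw [← hi i]
        exact (Run7.h565.SM.arcL_spec hb g i).2.1.symm
      · rintro rfl i
        exact (Run7.h565.SM.arcL_spec hb g i).2.1
    have e2 : (∀ i, α i * (L : ℝ) ^ d < arcLen b g i) ↔
        ∀ i, α i < (Run7.h565.SM.arcL b g i : ℝ) / Fintype.card (Fin d → ZMod L) := by
      refine forall_congr' fun i => ?_
      rw [hcard, lt_div_iff₀ hL0]
      rfl
    unfold Run7.h565.SM.evA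
    rw [← ite_and]
    exact if_congr (and_congr e1 e2) rfl rfl
  have h3 : Run7.h565.SM.Ph k (∑ i, α i) = (1 - ∑ i, α i) ^ k / (k.factorial : ℝ) := by
    unfold Run7.h565.SM.Ph
    rw [max_eq_right (by linarith)]
  have h4 : ∀ g : Perm (Fin d → ZMod L), later (nnRate d L) s (fun h =>
        (if Induces b h π ∧ ∀ i, α i * (L : ℝ) ^ d < arcLen b h i then 1 else 0) *
          later (nnRate d L) s' (Φ g) h) g -
        (1 - ∑ i, α i) ^ k / (k.factorial : ℝ) * later (nnRate d L) (s + s') (Φ g) g =
      Run7.h565.SM.fut (nnRate d L) s (fun h => (Run7.h565.SM.evA b π α h -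
        Run7.h565.SM.Ph k (∑ i, α i)) * Run7.h565.SM.fut (nnRate d L) s' (Φ g) h) g := by
    intro g
    have e5 : later (nnRate d L) (s + s') (Φ g) g = Run7.h565.SM.fut (nnRate d L) s
        (Run7.h565.SM.fut (nnRate d L) s' (Φ g)) g := by
      rw [add_comm s s', ← Run7.h565.SM.fut_add]
      rfl
    rw [h3, e5, ← h2]
    unfold later Run7.h565.SM.fut
    rw [Finset.mul_sum, ← Finset.sum_sub_distrib]
    exact Finset.sum_congr rfl fun h _ => by ring
  simp only [h4]
  exact h1

end Pool.Agent.Results.MP_6c3d62_pr.ArcsPastAndFuture
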